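import Mathlib

set_option autoImplicit false

open Set Filter Topology TopologicalSpace

namespace Pool.Agent.H.MP_3bb15c

/-- a system of basic neighbourhoods -/
structure NS (α : Type) where
  R : ℕ → α → α → Prop
  rfl : ∀ n p, R n p p
  mono : ∀ {m n p q}, m ≤ n → R n p q → R m p q
  opn : ∀ {n p q}, R n p q → ∃ m, ∀ r, R m q r → R n p r

@[reducible] def NS.top {α : Type} (N : NS α) : TopologicalSpace α where
  IsOpen U := ∀ p ∈ U, ∃ n, ∀ q, N.R n p q → q ∈ U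
  isOpen_univ := fun _ _ => ⟨0, fun _ _ => trivial⟩
  isOpen_inter := fun _ _ hs ht p h => (hs p h.1).elim fun m a => (ht p h.2).elim fun n b =>
    ⟨max m n, fun q k => ⟨a q (N.mono (le_max_left _ _) k), b q (N.mono (le_max_right _ _) k)⟩⟩
  isOpen_sUnion := fun _ hs p ⟨t, h1, h2⟩ => (hs t h1 p h2).imp fun _ h q k => ⟨t, h1, h q k⟩

lemma NS.basis {α : Type} (N : NS α) (p : α) :
    (@nhds α N.top p).HasBasis (fun _ => True) fun n => {q | N.R n p q} := ⟨fun _ => by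
  let _ := N.top
  rw [mem_nhds_iff]
  exact ⟨fun ⟨t, a, b, c⟩ => (b p c).imp fun _ h => ⟨trivial, fun q k => a (h q k)⟩,
    fun ⟨n, _, h⟩ => ⟨_, h, fun _ k => N.opn k, N.rfl n p⟩⟩⟩

def I (k : ℕ∞) : Set ℕ := {n | k ≤ n}

lemma I_top : I ⊤ = ∅ := by simp [I]
lemma I_inf (k l : ℕ∞) : I (k ⊓ l) = I k ∪ I l := by ext; simp [I]

def Y : Type := {p : (Set ℕ)ᵒᵈ × ℕ∞ × Bool //
  I p.2.1 ⊆ OrderDual.ofDual p.1 ∧ (p.2.2 = true → (OrderDual.ofDual p.1).Finite)}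

noncomputable instance : SemilatticeInf Y := Subtype.semilatticeInf fun p q a b =>
  ⟨(I_inf _ _).subset.trans (union_subset_union a.1 b.1), fun h =>
    (a.2 (Bool.and_eq_true_iff.1 h).1).union (b.2 (Bool.and_eq_true_iff.1 h).2)⟩

def Y.A (p : Y) : Set ℕ := OrderDual.ofDual p.1.1
def Y.k (p : Y) : ℕ∞ := p.1.2.1
def Y.b (p : Y) : Bool := p.1.2.2
def mk (A : Set ℕ) (k : ℕ∞) (b : Bool) (h : I k ⊆ A) (h' : b = true → A.Finite) : Y :=
  ⟨(OrderDual.toDual A, k, b), h, h'⟩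

lemma Y.ext {p q : Y} (a : p.A = q.A) (b : p.k = q.k) (c : p.b = q.b) : p = q :=
  Subtype.ext (Prod.ext a (Prod.ext b c))
lemma le_iff {p q : Y} : p ≤ q ↔ q.A ⊆ p.A ∧ p.k ≤ q.k ∧ p.b ≤ q.b := Iff.rfl
lemma Y.fin (p : Y) (h : p.A.Finite) : p.k = ⊤ := by
  by_contra k
  obtain ⟨n, hn⟩ := ENat.ne_top_iff_exists.1 k
  exact Ici_infinite n (h.subset fun m hm => p.2.1 (hn.ge.trans (Nat.cast_le.2 hm)))

def ag (n : ℕ) (p q : Y) : Prop := (∀ i < n, i ∈ p.A ↔ i ∈ q.A) ∧ p.k ⊓ n = q.k ⊓ n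

lemma ag.mono {m n : ℕ} {p q : Y} (h : m ≤ n) (a : ag n p q) : ag m p q :=
  ⟨fun i hi => a.1 i (hi.trans_le h), by
    rw [← inf_eq_right.2 (Nat.cast_le.2 h : (m : ℕ∞) ≤ n), ← inf_assoc, a.2, inf_assoc]⟩
lemma ag.trans {n : ℕ} {p q r : Y} (a : ag n p q) (b : ag n q r) : ag n p r :=
  ⟨fun i h => (a.1 i h).trans (b.1 i h), a.2.trans b.2⟩
lemma ag.symm {n : ℕ} {p q : Y} (a : ag n p q) : ag n q p := ⟨fun i h => (a.1 i h).symm, a.2.symm⟩
lemma ag.inf {n : ℕ} {p q r s : Y} (a : ag n p q) (b : ag n r s) : ag n (p ⊓ r) (q ⊓ s) :=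
  ⟨fun i h => or_congr (a.1 i h) (b.1 i h), by
    show p.k ⊓ r.k ⊓ n = q.k ⊓ s.k ⊓ n
    rw [inf_inf_distrib_right, a.2, b.2, ← inf_inf_distrib_right]⟩

lemma iso {q : Y} (h : q.k ≠ ⊤) : ∃ m, ∀ r, ag m q r → r = q := by
  obtain ⟨n, hn⟩ := ENat.ne_top_iff_exists.1 h
  refine ⟨n + 1, fun r ⟨a, b⟩ => ?_⟩
  have l : q.k < (n + 1 : ℕ) := hn ▸ Nat.cast_lt.2 n.lt_succ_self
  have e : r.k = q.k := by
    rw [inf_eq_left.2 l.le] at b
    rcases le_total r.k (n + 1 : ℕ) with c | c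
    exacts [(b.trans (inf_eq_left.2 c)).symm, (l.ne (b.trans (inf_eq_right.2 c))).elim]
  refine Y.ext (Set.ext fun i => ?_) e ?_
  · rcases lt_or_ge i (n + 1) with c | c
    exacts [(a i c).symm, iff_of_true (r.2.1 (e.le.trans (l.le.trans (Nat.cast_le.2 c))))
      (q.2.1 (l.le.trans (Nat.cast_le.2 c)))]
  · exact (Bool.eq_false_iff.2 fun k => h (e ▸ r.fin (r.2.2 k))).trans
      (Bool.eq_false_iff.2 fun k => h (q.fin (q.2.2 k))).symm

lemma sep {p q : Y} (h : ∀ n, ag n p q) : p.A = q.A ∧ p.k = q.k := by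
  have : ∀ {p q : Y}, (∀ n, ag n p q) → p.k ≤ q.k := fun h =>
    ENat.forall_natCast_le_iff_le.1 fun n k => inf_eq_right.1 ((h n).2.symm.trans (inf_eq_right.2 k))
  exact ⟨Set.ext fun i => (h _).1 i i.lt_succ_self, (this h).antisymm (this fun n => (h n).symm)⟩

def NY : NS Y where
  R n p q := ag n p q ∧ (p.A.Finite → q.b = p.b ∧ (q.k = ⊤ → q.A.Finite))
  rfl _ _ := ⟨⟨fun _ _ => Iff.rfl, rfl⟩, fun h => ⟨rfl, fun _ => h⟩⟩
  mono h a := ⟨a.1.mono h, a.2⟩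
  opn {n p q} a := by
    by_cases e : q.k = ⊤
    · exact ⟨n, fun r b => ⟨a.1.trans b.1, fun h => (b.2 ((a.2 h).2 e)).imp_left fun k =>
        k.trans (a.2 h).1⟩⟩
    · obtain ⟨m, h⟩ := iso e
      exact ⟨m, fun r b => h r b.1 ▸ a⟩

instance : TopologicalSpace Y := NY.top

instance : ContinuousInf Y := ⟨continuous_iff_continuousAt.2 fun p => by
  refine (((NY.basis p.1).prod_nhds (NY.basis p.2)).tendsto_iff (NY.basis _)).2 fun n _ =>
    ⟨(n, n), ⟨trivial, trivial⟩, fun q ⟨a, b⟩ => ⟨a.1.inf b.1, fun h => ?_⟩⟩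
  have c := a.2 (finite_union.1 h).1
  have d := b.2 (finite_union.1 h).2
  exact ⟨congrArg₂ and c.1 d.1, fun k => (c.2 (inf_eq_top_iff.1 k).1).union
    (d.2 (inf_eq_top_iff.1 k).2)⟩⟩

instance : T2Space Y := t2Space_iff_disjoint_nhds.2 fun p q h => by
  refine ((NY.basis p).disjoint_iff (NY.basis q)).2 ?_
  by_contra! k
  have k := fun n => not_disjoint_iff.1 (k n trivial n trivial)
  have e := sep fun n => (k n).elim fun r h => h.1.1.trans h.2.1.symm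
  obtain ⟨r, a, b⟩ := k 0
  refine h (Y.ext e.1 e.2 ?_)
  by_cases f : p.A.Finite
  · exact (a.2 f).1.symm.trans (b.2 (e.1 ▸ f)).1
  · exact (Bool.eq_false_iff.2 fun k => f (p.2.2 k)).trans
      (Bool.eq_false_iff.2 fun k => f (e.1 ▸ q.2.2 k)).symm

def top : Y := mk ∅ ⊤ true I_top.subset fun _ => finite_empty

lemma fin (n : ℕ) : {q : Y | q.k ≤ n ∨ q.A ⊆ Iio n}.Finite := by
  refine .of_finite_image (f := fun q => (q.A ∩ Iio n, q.k, q.b)) (((finite_Iio n).finite_subsets.prod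
    ((((finite_Iic n).image Nat.cast).insert ⊤).prod finite_univ)).subset ?_) ?_
  · rintro _ ⟨q, h, rfl⟩
    refine ⟨inter_subset_right, h.elim (fun h => .inr ?_) fun h => .inl (q.fin
      ((finite_Iio n).subset h)), trivial⟩
    obtain ⟨m, hm⟩ := ENat.ne_top_iff_exists.1 (ne_top_of_le_ne_top (ENat.natCast_ne_top n) h)
    exact ⟨m, Nat.cast_le.1 (hm.le.trans h), hm⟩
  · intro p a q b e
    simp only [Prod.mk.injEq] at e
    refine Y.ext (Set.ext fun i => ?_) e.2.1 e.2.2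
    rcases lt_or_ge i n with c | c
    · simpa [c] using Set.ext_iff.1 e.1 i
    · by_cases f : p.k ≤ n
      · exact iff_of_true (p.2.1 (f.trans (Nat.cast_le.2 c)))
          (q.2.1 (e.2.1.ge.trans (f.trans (Nat.cast_le.2 c))))
      · exact iff_of_false (fun k => c.not_gt (a.resolve_left f k))
          fun k => c.not_gt (b.resolve_left (e.2.1 ▸ f) k)

end Pool.Agent.H.MP_3bb15c
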