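import Pool.Agent.H.MP_3bb15c.A

set_option autoImplicit false

open Set Filter Topology TopologicalSpace

namespace Pool.Agent.H.MP_3bb15c

lemma le_top' (p : Y) : p ≤ top := le_iff.2 ⟨empty_subset _, le_top, le_top⟩

def X : Type := {p : Y // p ≠ top}

noncomputable instance : SemilatticeInf X := Subtype.semilatticeInf fun p _ a _ h =>
  a ((le_top' p).antisymm (h.ge.trans inf_le_left))

def NX : NS X where
  R n p q := ag n p.1 q.1 ∧ (p.1.A.Finite → q.1.b = p.1.b ∧ q.1.A = p.1.A ∪ I q.1.k)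
  rfl _ p := ⟨⟨fun _ _ => Iff.rfl, rfl⟩, fun _ => ⟨rfl, (union_eq_left.2 p.1.2.1).symm⟩⟩
  mono h a := ⟨a.1.mono h, a.2⟩
  opn {n p q} a := by
    by_cases e : q.1.k = ⊤
    · refine ⟨n, fun r b => ⟨a.1.trans b.1, fun h => ?_⟩⟩
      have c := a.2 h
      rw [e, I_top, union_empty] at c
      exact c.1 ▸ c.2 ▸ b.2 (c.2 ▸ h)
    · obtain ⟨m, h⟩ := iso e
      exact ⟨m, fun r b => (Subtype.ext (h r.1 b.1) : r = q) ▸ a⟩

instance : TopologicalSpace X := NX.top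

instance : ContinuousInf X := ⟨continuous_iff_continuousAt.2 fun p => by
  refine (((NX.basis p.1).prod_nhds (NX.basis p.2)).tendsto_iff (NX.basis _)).2 fun n _ =>
    ⟨(n, n), ⟨trivial, trivial⟩, fun q ⟨a, b⟩ => ⟨a.1.inf b.1, fun h => ?_⟩⟩
  have c := a.2 (finite_union.1 h).1
  have d := b.2 (finite_union.1 h).2
  refine ⟨congrArg₂ and c.1 d.1, ?_⟩
  show q.1.1.A ∪ q.2.1.A = (p.1.1.A ∪ p.2.1.A) ∪ I (q.1.1.k ⊓ q.2.1.k)
  rw [I_inf, union_union_union_comm, ← c.2, ← d.2]⟩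

def inc (p : X) : Y := p.1

lemma cont : Continuous inc := continuous_iff_continuousAt.2 fun p =>
  ((NX.basis p).tendsto_iff (NY.basis _)).2 fun n _ => ⟨n, trivial, fun q a => ⟨a.1, fun h =>
    ⟨(a.2 h).1, fun k : q.1.k = ⊤ => by
      show q.1.A.Finite
      rwa [(a.2 h).2, k, I_top, union_empty]⟩⟩⟩

lemma not_closed : ¬ IsClosed (range inc) := fun h => by
  obtain ⟨p, hp⟩ := h.closure_subset ((mem_closure_iff_nhds_basis (NY.basis top)).2 fun n _ =>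
    ⟨_, ⟨⟨mk {n} ⊤ true (I_top.subset.trans (empty_subset _)) fun _ => finite_singleton n,
      fun e => singleton_ne_empty n (congrArg Y.A e)⟩, rfl⟩,
      ⟨fun i hi => iff_of_false id hi.ne, rfl⟩, fun _ => ⟨rfl, fun _ => finite_singleton n⟩⟩)
  exact p.2 hp

instance : T3Space X := by
  have : T2Space X := .of_injective_continuous (f := inc) Subtype.val_injective cont
  have : RegularSpace X := .of_hasBasis NX.basis fun p n _ => ⟨fun r hr => by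
    by_cases a : ag n p.1 r.1
    · obtain ⟨f, c⟩ := Classical.not_imp.1 fun k => hr ⟨a, k⟩
      by_cases e : r.1.k = ⊤
      · by_cases g : r.1.A = p.1.A
        · exact ⟨0, fun s b d => c ⟨(b.2 (g ▸ f)).1.symm.trans (d.2 f).1, by
            rw [e, I_top, union_empty, g]⟩⟩
        · obtain ⟨i, hi⟩ := not_forall.1 (mt Set.ext g)
          refine ⟨i + 1, fun s b d => hi ((b.1.1 i i.lt_succ_self).trans ?_)⟩
          rw [(d.2 f).2]
          refine or_iff_left fun k => ?_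
          have := (inf_eq_right.1 (b.1.2.symm.trans (by rw [e, top_inf_eq]))).trans k
          exact (Nat.cast_le.1 this).not_gt i.lt_succ_self
      · obtain ⟨m, h⟩ := iso e
        exact ⟨m, fun s b => (Subtype.ext (h s.1 b.1) : s = r) ▸ hr⟩
    · exact ⟨n, fun s b d => a (d.1.trans b.1.symm)⟩⟩
  infer_instance

lemma glb (S : Set X) (h : S.Nonempty) (hS : InfClosed S) : ∃ a, IsGLB S a ∧ a ∈ closure S := by
  classical
  obtain ⟨p, p1, p2⟩ := (wellFounded_lt (α := ℕ∞ × Bool)).has_min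
    ((fun p : X => (p.1.k, p.1.b)) '' S) (h.image _)
  obtain ⟨p, p1, rfl⟩ := p1
  have k : ∀ q ∈ S, (p.1.k, p.1.b) ≤ (q.1.k, q.1.b) := fun q hq => by
    have := eq_of_le_of_not_lt (show ((p ⊓ q).1.k, (p ⊓ q).1.b) ≤ (p.1.k, p.1.b) from
      (le_iff.1 inf_le_left).2) (p2 _ ⟨_, hS p1 hq, rfl⟩)
    exact this ▸ (le_iff.1 (inf_le_right (a := p) (b := q))).2
  let a : Y := mk (⋃ q ∈ S, q.1.A) p.1.k (p.1.b && decide (⋃ q ∈ S, q.1.A).Finite)
    (p.1.2.1.trans (subset_biUnion_of_mem (u := fun q : X => q.1.A) p1)) (by simp)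
  have l : ∀ q ∈ S, a ≤ q.1 := fun q hq => le_iff.2 ⟨subset_biUnion_of_mem (u := fun q : X => q.1.A)
    hq, (k q hq).1, (Bool.and_le_left _ _).trans (k q hq).2⟩
  have m : ∀ F : Set ℕ, F.Finite → F ⊆ a.A → ∃ q ∈ S, F ⊆ q.1.A ∧ q ≤ p := fun F f =>
    f.induction_on _ (fun _ => ⟨p, p1, empty_subset _, le_rfl⟩) fun _ _ ih e => by
      obtain ⟨q, q1, q2, q3⟩ := ih ((subset_insert _ _).trans e)
      obtain ⟨r, r1, r2⟩ := mem_iUnion₂.1 (e (mem_insert _ _))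
      exact ⟨q ⊓ r, hS q1 r1, insert_subset (.inr r2) fun _ h => .inl (q2 h), inf_le_left.trans q3⟩
  refine ⟨⟨a, fun e => p.2 ((le_top' _).antisymm (e.ge.trans (l p p1)))⟩, ⟨l, fun q hq => ?_⟩,
    (mem_closure_iff_nhds_basis (NX.basis _)).2 fun n _ => ?_⟩
  · have s : a.A ⊆ q.1.A := iUnion₂_subset fun r hr => (le_iff.1 (hq hr)).1
    exact le_iff.2 ⟨s, (le_iff.1 (hq p1)).2.1, Bool.le_iff_imp.2 fun b => Bool.and_eq_true_iff.2
      ⟨Bool.le_iff_imp.1 (le_iff.1 (hq p1)).2.2 b, decide_eq_true ((q.1.2.2 b).subset s)⟩⟩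
  · by_cases f : a.A.Finite
    · obtain ⟨q, q1, q2, q3⟩ := m _ f subset_rfl
      refine ⟨q, q1, (Subtype.ext ((l q q1).antisymm (le_iff.2 ⟨q2, (le_iff.1 q3).2.1, ?_⟩)) :
        (⟨a, _⟩ : X) = q) ▸ NX.rfl _ _⟩
      exact (le_iff.1 q3).2.2.trans (by simp [a, mk, Y.b, show (⋃ q ∈ S, q.1.A).Finite from f])
    · obtain ⟨q, q1, q2, q3⟩ := m _ ((finite_Iio n).inter_of_right _) inter_subset_left
      exact ⟨q, q1, ⟨fun i hi => ⟨fun h => q2 ⟨h, hi⟩, fun h => (le_iff.1 (l q q1)).1 h⟩, by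
        rw [((le_iff.1 q3).2.1.antisymm (k q q1).1 : q.1.k = p.1.k)]; rfl⟩, fun h => (f h).elim⟩

lemma lub (C : Set X) (h : C.Nonempty) (hC : IsChain (· ≤ ·) C) :
    ∃ a, IsLUB C a ∧ a ∈ closure (lowerClosure C : Set X) := by
  by_cases g : ∃ a, IsGreatest C a
  · exact g.imp fun a h => ⟨h.isLUB, subset_closure (subset_lowerClosure h.1)⟩
  have f : ∀ p ∈ C, ∀ n : ℕ, ∃ q ∈ C, p ≤ q ∧ ¬ (q.1.k ≤ n ∨ q.1.A ⊆ Iio n) := fun p hp n => by
    by_contra! k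
    obtain ⟨m, hm⟩ := (((fin n).preimage Subtype.val_injective.injOn).subset
      (t := {q ∈ C | p ≤ q}) fun q h => k q h.1 h.2).exists_maximal ⟨p, hp, le_rfl⟩
    refine g ⟨m, hm.1.1, fun r hr => (hC.total hr hm.1.1).elim id fun e => hm.2 ⟨hr, ?_⟩ e⟩
    exact hm.1.2.trans e
  have b : ∀ p ∈ C, p.1.b = false := fun p hp => Bool.eq_false_iff.2 fun k => by
    obtain ⟨n, hn⟩ := (p.1.2.2 k).bddAbove
    obtain ⟨q, -, q1, q2⟩ := f p hp (n + 1)
    exact q2 (.inr fun i hi => Nat.lt_succ_of_le (hn ((le_iff.1 q1).1 hi)))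
  let a : Y := mk (⋂ q ∈ C, q.1.A) ⊤ false (I_top.subset.trans (empty_subset _)) (by simp)
  have m : ∀ n, ∃ q ∈ C, ∀ i < n, i ∈ q.1.A → i ∈ a.A := fun n => by
    induction n with
    | zero => exact h.imp fun q h => ⟨h, by simp⟩
    | succ n ih =>
      obtain ⟨q, q1, q2⟩ := ih
      by_cases e : n ∈ a.A
      · exact ⟨q, q1, Nat.forall_lt_succ_right.2 ⟨q2, fun _ => e⟩⟩
      · obtain ⟨r, r1, r2⟩ : ∃ r ∈ C, n ∉ r.1.A := by simpa [a, mk, Y.A] using e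
        obtain ⟨s, s1, s2, s3⟩ := hC.directedOn q q1 r r1
        exact ⟨s, s1, Nat.forall_lt_succ_right.2 ⟨fun i hi k => q2 i hi ((le_iff.1 s2).1 k),
          fun k => (r2 ((le_iff.1 s3).1 k)).elim⟩⟩
  refine ⟨⟨a, fun e => by cases congrArg Y.b e⟩, ⟨fun q hq => le_iff.2
    ⟨biInter_subset_of_mem (t := fun q : X => q.1.A) hq, le_top, (b q hq).le⟩, fun q hq => le_iff.2
      ⟨subset_iInter₂ fun r hr => (le_iff.1 (hq hr)).1, ENat.forall_natCast_le_iff_le.1 fun n _ => ?_,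
        bot_le⟩⟩, (mem_closure_iff_nhds_basis (NX.basis _)).2 fun n _ => ?_⟩
  · obtain ⟨r, r1, -, r2⟩ := f _ h.some_mem n
    exact (not_le.1 (not_or.1 r2).1).le.trans (le_iff.1 (hq r1)).2.1
  · obtain ⟨q, q1, q2⟩ := m n
    obtain ⟨r, r1, r2, r3⟩ := f q q1 n
    refine ⟨⟨mk (a.A ∪ I n) n false subset_union_right (by simp), fun e => by
      cases congrArg Y.b e⟩, ⟨r, r1, le_iff.2 ⟨fun i hi => ?_, (not_le.1 (not_or.1 r3).1).le,
        bot_le⟩⟩, ⟨fun i hi => (or_iff_left fun k : (n : ℕ∞) ≤ i => (Nat.cast_le.1 k).not_gt hi).symm, ?_⟩,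
      fun _ => ⟨rfl, rfl⟩⟩
    · exact (lt_or_ge i n).imp (fun k => q2 i k ((le_iff.1 r2).1 hi)) fun k =>
        (Nat.cast_le.2 k : (n : ℕ∞) ≤ i)
    · exact (top_inf_eq _).trans (inf_idem _).symm

end Pool.Agent.H.MP_3bb15c
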